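import Pool.Agent.Run7.h531.LP.ORD
import Pool.Agent.Run7.h531.LP.NL
import Pool.Agent.Run7.h531.LP.SEG
import Pool.Agent.Run7.h531.LP.B1

/-!
# MP_34d506_co: a segment graph that is a `B₁`-VPG graph and not an `{L, Γ}`-graph

The graph is the complement of three disjoint Petersen graphs (30 vertices).
-/

set_option autoImplicit false

namespace Pool.Agent.Results.MP_34d506_co.NotLGamma

/-- `H` is the intersection graph of a family of (nondegenerate) straight-line segments. -/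
def IsSEG {V : Type} (H : SimpleGraph V) : Prop :=
  ∃ p q : V → ℝ × ℝ, (∀ a, p a ≠ q a) ∧ ∀ a b, a ≠ b →
    (H.Adj a b ↔ (segment ℝ (p a) (q a) ∩ segment ℝ (p b) (q b)).Nonempty)

/-- The union of the vertical segment from `(x, y)` to `(x, t)` and the horizontal segment from
`(x, y)` to `(r, y)`. -/
def bent (x y r t : ℝ) : Set (ℝ × ℝ) := segment ℝ (x, y) (x, t) ∪ segment ℝ (x, y) (r, y)

/-- `H` is a `B₁`-VPG graph: the intersection graph of a family of nontrivial grid paths with at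
most one bend, from `(x, t)` via `(x, y)` to `(r, y)`, where `x, y, r, t` are integers. -/
def IsB1VPG {V : Type} (H : SimpleGraph V) : Prop :=
  ∃ x y r t : V → ℤ, (∀ a, x a ≠ r a ∨ y a ≠ t a) ∧ ∀ a b, a ≠ b →
    (H.Adj a b ↔ (bent (x a) (y a) (r a) (t a) ∩ bent (x b) (y b) (r b) (t b)).Nonempty)

/-- `H` is an `{L, Γ}`-graph: the intersection graph of a family of L-shapes (`x < r`, `y < t`) and
Gamma-shapes (`x < r`, `t < y`); overlapping shapes are allowed. -/
def IsLGamma {V : Type} (H : SimpleGraph V) : Prop :=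
  ∃ x y r t : V → ℝ, (∀ a, x a < r a ∧ y a ≠ t a) ∧ ∀ a b, a ≠ b →
    (H.Adj a b ↔ (bent (x a) (y a) (r a) (t a) ∩ bent (x b) (y b) (r b) (t b)).Nonempty)

/-- Some finite graph is a segment graph and a `B₁`-VPG graph, but not an `{L, Γ}`-graph. -/
theorem result : ∃ (V : Type) (_ : Finite V) (H : SimpleGraph V),
    IsSEG H ∧ IsB1VPG H ∧ ¬ IsLGamma H :=
  ⟨Fin 30, inferInstance, Pool.Agent.Run7.h531.LP.H, Run7.h531.LP.t_SEG,
    ⟨Pool.Agent.Run7.h531.LP.bx, Pool.Agent.Run7.h531.LP.bv, Pool.Agent.Run7.h531.LP.bh,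
      Pool.Agent.Run7.h531.LP.bt, fun a => Or.inl (Run7.h531.LP.nondeg a).1,
      Run7.h531.LP.t_B1'⟩, Run7.h531.LP.t_NL Run7.h531.LP.t_ORD⟩

end Pool.Agent.Results.MP_34d506_co.NotLGamma
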